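import Pool.Agent.helper79.SX.All

/-!
# Almost primes `m`, `m + 6` between all consecutive cubes (MP_5628fe_nt)
-/

set_option autoImplicit false

namespace Pool.Agent.Results.MP_5628fe_nt.AlmostPrimePairs

/-- For every `n ≥ 3` there are at least `n`, and at least `n ^ 2 / (20 (log n) ^ 2)`, integers `m` with
`n ^ 3 < m < m + 6 < (n + 1) ^ 3` such that `m` and `m + 6` have at most four prime factors each and at most
seven together (counted with multiplicity; so one of them has at most three), no prime factor below `7`, no prime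
factor `≤ n ^ (2 / 11)`, and there is no prime strictly between `m` and `m + 6`. -/
theorem result : ∀ n : ℕ, 3 ≤ n → ∃ T : Finset ℕ,
    (∀ m ∈ T, n ^ 3 < m ∧ m + 6 < (n + 1) ^ 3 ∧
      ArithmeticFunction.cardFactors m ≤ 4 ∧ ArithmeticFunction.cardFactors (m + 6) ≤ 4 ∧
      ArithmeticFunction.cardFactors m + ArithmeticFunction.cardFactors (m + 6) ≤ 7 ∧
      (∀ p : ℕ, p.Prime → p ∣ m * (m + 6) → 7 ≤ p ∧ n ^ 2 < p ^ 11) ∧
      ∀ q : ℕ, m < q → q < m + 6 → ¬ q.Prime) ∧
    n ≤ T.card ∧ (n : ℝ) ^ 2 / (20 * Real.log n ^ 2) ≤ (T.card : ℝ) := by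
  intro n hn
  obtain ⟨h1, h2⟩ := Pool.Agent.SX.ALL n hn
  refine ⟨Pool.Agent.SX.Tset n, ?_, h1, h2⟩
  intro m hm
  simp only [Pool.Agent.SX.Tset, Finset.mem_filter, Finset.mem_Ioo] at hm
  exact ⟨hm.1.1, hm.2⟩

end Pool.Agent.Results.MP_5628fe_nt.AlmostPrimePairs
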