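import Pool.Agent.helper51.NP.All

/-!
# Near primes at distance exactly `h` between consecutive cubes

For every `h ≥ 1` (for example `h = 6`) there are `K` and `c > 0` such that for all `N ≥ K` at least
`c N` of the `n ≤ N` have at least `n² / (log n)^K` integers `m` with `n³ < m < m + h < (n + 1)³` such
that `m = a p` and `m + h = b q` with primes `p`, `q` and `a, b ≤ K`, `Ω(a) = Ω(b)`, and no prime
is strictly between `m` and `m + h`.
-/

set_option autoImplicit false

namespace Pool.Agent.Results.MP_5628fe_nt.NearPrimePairs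

/-- `m = a p` and `m + h = b q` with primes `p`, `q`, where `a`, `b` are at most `K` and have equally
many prime factors (with multiplicity), and no prime is strictly between `m` and `m + h`. -/
def NearPair (h K m : ℕ) : Prop :=
  (∃ a b p q : ℕ, p.Prime ∧ q.Prime ∧ a ≤ K ∧ b ≤ K ∧
    ArithmeticFunction.cardFactors a = ArithmeticFunction.cardFactors b ∧
    m = a * p ∧ m + h = b * q) ∧
  ∀ l : ℕ, m < l → l < m + h → ¬ l.Prime

/-- The number of the near pairs `m`, `m + h` between `n ^ 3` and `(n + 1) ^ 3`. -/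
noncomputable def count (h K n : ℕ) : ℕ :=
  {m : ℕ | n ^ 3 < m ∧ m + h < (n + 1) ^ 3 ∧ NearPair h K m}.ncard

theorem result : ∀ h : ℕ, 1 ≤ h → ∃ (K : ℕ) (c : ℝ), 0 < c ∧ ∀ N : ℕ, K ≤ N →
    c * N ≤ ({n : ℕ | 2 ≤ n ∧ n ≤ N ∧
      (n : ℝ) ^ 2 / Real.log n ^ K ≤ (count h K n : ℝ)}.ncard : ℝ) := by
  classical
  intro h hh
  have hcnt : ∀ K n : ℕ, count h K n = NPC.cnt h K n := by
    intro K n
    unfold count NPC.cnt
    rw [← Set.ncard_coe_finset]
    congr 1
    ext m
    simp only [Set.mem_ofPred_eq, Finset.coe_filter, Finset.mem_Ioo]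
    constructor
    · rintro ⟨h1, h2, h3⟩
      exact ⟨⟨h1, by omega⟩, h2, h3⟩
    · rintro ⟨⟨h1, -⟩, h2, h3⟩
      exact ⟨h1, h2, h3⟩
  obtain ⟨K, c, hc, H⟩ := NPC.np_fin h hh
  refine ⟨K, c, hc, fun N hN => ?_⟩
  refine (H N hN).trans (le_of_eq ?_)
  rw [← Set.ncard_coe_finset]
  congr 2
  ext n
  simp only [Set.mem_ofPred_eq, Finset.coe_filter, Finset.mem_Icc, hcnt]
  tauto

end Pool.Agent.Results.MP_5628fe_nt.NearPrimePairs
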