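import Pool.Agent.helper26.EC.Fin

/-!
# A prime `p` and `p + 6` with at most four prime factors between all large consecutive cubes (MP_5628fe_nt)
-/

set_option autoImplicit false

namespace Pool.Agent.Results.MP_5628fe_nt.PrimeAndP4EveryCube

/-- The primes `p` with `n ^ 3 < p < p + 6 < (n + 1) ^ 3` such that `p + 6` has at most four prime factors (with
multiplicity), each prime factor `q` of `p + 6` satisfies `n < q ^ 11`, and there is no prime strictly between `p` and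
`p + 6`. -/
def Good (n : ℕ) : Set ℕ :=
  {p | p.Prime ∧ n ^ 3 < p ∧ p + 6 < (n + 1) ^ 3 ∧
    ArithmeticFunction.cardFactors (p + 6) ≤ 4 ∧
    (∀ q : ℕ, q.Prime → q ∣ p + 6 → n < q ^ 11) ∧
    ∀ q : ℕ, p < q → q < p + 6 → ¬ q.Prime}

lemma good_of_G4 (n p : ℕ) (h : p ∈ Pool.Agent.EC.G4 n) : p ∈ Good n := by
  unfold Pool.Agent.EC.G4 at h
  rw [Finset.mem_filter, Finset.mem_Ioo] at h
  obtain ⟨⟨h1, h2⟩, h3, h4, h5, h6, h7⟩ := h
  refine ⟨h3, h1, h4, h6, ?_, ?_⟩
  · intro q hq hd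
    exact h7 q (Nat.mem_primeFactors.2 ⟨hq, hd, by omega⟩)
  · intro q hq1 hq2 hq
    have hp : 30 ≤ p := by
      by_contra hlt
      push Not at hlt
      have : p = 1 := by omega
      rw [this] at h3
      exact Nat.not_prime_one h3
    have h8 : q % 30 = 2 ∨ q % 30 = 3 ∨ q % 30 = 4 ∨ q % 30 = 5 ∨ q % 30 = 6 := by omega
    have h2' : q % 2 = 0 ∨ q % 3 = 0 ∨ q % 5 = 0 := by omega
    rcases h2' with h | h | h
    · have := (Nat.prime_dvd_prime_iff_eq Nat.prime_two hq).1 (Nat.dvd_of_mod_eq_zero h); omega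
    · have := (Nat.prime_dvd_prime_iff_eq Nat.prime_three hq).1 (Nat.dvd_of_mod_eq_zero h); omega
    · have := (Nat.prime_dvd_prime_iff_eq Nat.prime_five hq).1 (Nat.dvd_of_mod_eq_zero h); omega

lemma good_finite (n : ℕ) : (Good n).Finite :=
  (Set.finite_Iio ((n + 1) ^ 3)).subset fun p hp => by
    have := hp.2.2.1
    simp only [Set.mem_Iio]
    omega

lemma card_le (n : ℕ) : ((Pool.Agent.EC.G4 n).card : ℝ) ≤ ((Good n).ncard : ℝ) := by
  have h : (Pool.Agent.EC.G4 n : Set ℕ) ⊆ Good n := fun p hp => good_of_G4 n p hp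
  have := Set.ncard_le_ncard h (good_finite n)
  rw [Set.ncard_coe_finset] at this
  exact_mod_cast this

/-- There are `c > 0` and `n₀` such that for EVERY `n ≥ n₀` the set `Good n` has at least `c n ^ 2 / (log n) ^ 2`
elements. -/
theorem result : ∃ c : ℝ, 0 < c ∧ ∃ n₀ : ℕ, ∀ n : ℕ, n₀ ≤ n →
    c * (n : ℝ) ^ 2 / Real.log n ^ 2 ≤ ((Good n).ncard : ℝ) := by
  obtain ⟨c, hc, N₀, h⟩ := Pool.Agent.EC.FN_all
  exact ⟨c, hc, N₀, fun n hn => (h n hn).trans (card_le n)⟩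

end Pool.Agent.Results.MP_5628fe_nt.PrimeAndP4EveryCube
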